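import Mathlib
import Pool.Agent.Lib_helper53.SetA
import Pool.Agent.Lib_helper53.NonWA
import Pool.Agent.Lib_helper53.Product
import Pool.Agent.Lib_helper69.AspDefs
import Pool.Agent.Lib_helper69.AspSpace
import Pool.Agent.Lib_helper69.AspCard
import Pool.Agent.Lib_helper69.AspNon
import Pool.Agent.Lib_helper69.AspProd

open Set Filter Topology

namespace Pool.Agent.Results.MP_17c4bf_an.AsplundFactor

open Pool.Agent.Lib_helper69.Asp
open Pool.Agent.Lib_helper53 (EE FF Prop1 Prop2 exists_A Fn monotone_Fn isClosed_Fn interior_Fn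
  cover_Fn dense_gateaux exists_dense_isGδ)

lemma gateaux_of_frechet {X : Type*} [AddCommGroup X] [Module ℝ X] [TopologicalSpace X]
    [ContinuousSMul ℝ X] {f : X → ℝ} {x : X} (h : FrechetDiffAt f x) : GateauxDiffAt f x := by
  obtain ⟨φ, hφ⟩ := h
  exact ⟨φ, fun v => (hφ {v} (Bornology.isVonNBounded_singleton v)).tendsto_at rfl⟩

lemma weak_of_asplund {X : Type*} [AddCommGroup X] [Module ℝ X] [TopologicalSpace X]
    [ContinuousSMul ℝ X] (h : IsAsplund X) : IsWeakAsplund X := by
  intro D f h1 h2 h3 h4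
  obtain ⟨G, hG1, hG2, hG3, hG4⟩ := h D f h1 h2 h3 h4
  exact ⟨G, hG1, hG2, hG3, fun x hx => gateaux_of_frechet (hG4 x hx)⟩

/-- There are locally convex Hausdorff spaces `E` and `F` (with `F` metrizable) such that `E × F`
is Asplund (hence weak Asplund), but `E` is not Asplund, not even weak Asplund. -/
theorem result :
    ∃ (E : Type) (_ : AddCommGroup E) (_ : Module ℝ E) (_ : TopologicalSpace E)
      (_ : IsTopologicalAddGroup E) (_ : ContinuousSMul ℝ E) (_ : LocallyConvexSpace ℝ E)
      (_ : T2Space E)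
      (F : Type) (_ : AddCommGroup F) (_ : Module ℝ F) (_ : TopologicalSpace F)
      (_ : IsTopologicalAddGroup F) (_ : ContinuousSMul ℝ F) (_ : LocallyConvexSpace ℝ F)
      (_ : T2Space F) (_ : TopologicalSpace.MetrizableSpace F),
      IsAsplund (E × F) ∧ ¬ IsAsplund E ∧ IsWeakAsplund (E × F) ∧ ¬ IsWeakAsplund E := by
  obtain ⟨A, hA1, hA2⟩ := exists_A
  obtain ⟨I, hI, E, hE, hEB⟩ := exists_space (EE A) (mk_EE_le A)
  have hcs : CtblSurj E := by
    intro S hS y c
    rcases S.eq_empty_or_nonempty with rfl | hne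
    · obtain ⟨z, hz, hz1, -⟩ := hE (fun _ => Classical.arbitrary I) y c
      exact ⟨⟨z, hz⟩, hz1, fun i hi => absurd hi (notMem_empty i)⟩
    · obtain ⟨Ψ, rfl⟩ := hS.exists_eq_range hne
      obtain ⟨z, hz, hz1, hz2⟩ := hE Ψ y c
      refine ⟨⟨z, hz⟩, hz1, ?_⟩
      rintro _ ⟨n, rfl⟩
      exact hz2 n
  have hfb : FinBdd E := by
    intro w hw
    have h1 : LinearIndependent ℝ fun n => (w n : EE A × (I → ℝ)) :=
      hw.map' E.subtype (Submodule.ker_subtype E)
    exact hEB _ (fun n => (w n).2) h1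
  have hprod : IsAsplund (E × FF) := by
    refine asplund_prod hcs hfb fun D f _ hD hf hc => ?_
    let : MetricSpace (EE A × FF) := TopologicalSpace.metrizableSpaceMetric (EE A × FF)
    obtain ⟨G, hG, hGδ, hdense⟩ := exists_dense_isGδ (Fn A) (monotone_Fn A) (isClosed_Fn A)
      (interior_Fn A) (cover_Fn A) D _ hD (dense_gateaux hA2 hD hf hc)
    exact ⟨G, fun x hx => (hG hx).1, hGδ, hdense, fun x hx => (hG hx).2⟩
  have hnot : ¬ IsWeakAsplund E := fun h => not_weakAsplundE hA1 hcs h
  exact ⟨E, inferInstance, inferInstance, inferInstance, inferInstance, inferInstance,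
    inferInstance, inferInstance, FF, inferInstance, inferInstance, inferInstance, inferInstance,
    inferInstance, inferInstance, inferInstance, inferInstance,
    hprod, fun h => hnot (weak_of_asplund h), weak_of_asplund hprod, hnot⟩

end Pool.Agent.Results.MP_17c4bf_an.AsplundFactor
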