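import Mathlib
import Pool.Agent.Lib_helper53.Defs
import Pool.Agent.Lib_helper53.SetA
import Pool.Agent.Lib_helper53.NonWA
import Pool.Agent.Lib_helper53.Product

open Set Filter Topology

namespace Pool.Agent.Results.MP_17c4bf_an.WeakAsplundFactor

open Pool.Agent.Lib_helper53

/-- There are a real Banach space `E` and a metrizable locally convex space `F` such that
`E × F` is weak Asplund but `E` is not weak Asplund. -/
theorem result :
    ∃ (E : Type) (_ : NormedAddCommGroup E) (_ : NormedSpace ℝ E) (_ : CompleteSpace E)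
      (F : Type) (_ : AddCommGroup F) (_ : Module ℝ F) (_ : TopologicalSpace F)
      (_ : IsTopologicalAddGroup F) (_ : ContinuousSMul ℝ F) (_ : LocallyConvexSpace ℝ F)
      (_ : T2Space F) (_ : TopologicalSpace.MetrizableSpace F),
      IsWeakAsplund (E × F) ∧ ¬ IsWeakAsplund E := by
  obtain ⟨A, hA1, hA2⟩ := exists_A
  refine ⟨EE A, inferInstance, inferInstance, inferInstance, FF, inferInstance, inferInstance,
    inferInstance, inferInstance, inferInstance, inferInstance, inferInstance, inferInstance,
    ?_, not_weakAsplund hA1⟩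
  intro D f _ hD hf hc
  let : MetricSpace (EE A × FF) := TopologicalSpace.metrizableSpaceMetric (EE A × FF)
  obtain ⟨G, hG, hGδ, hdense⟩ := exists_dense_isGδ (Fn A) (monotone_Fn A) (isClosed_Fn A)
    (interior_Fn A) (cover_Fn A) D _ hD (dense_gateaux hA2 hD hf hc)
  exact ⟨G, fun x hx => (hG hx).1, hGδ, hdense, fun x hx => (hG hx).2⟩

end Pool.Agent.Results.MP_17c4bf_an.WeakAsplundFactor
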